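import Pool.Agent.H914R2.DDefs

/-!
# Numerical and homological equivalence for the varieties dominated by products: definition
-/

open CategoryTheory AlgebraicGeometry

universe u v

namespace Pool.Agent.J4.H13.CZ

open Pool.Agent.H914 Pool.Agent.H914.VarClass Pool.Agent.H914.VarClass.Obj
  Pool.Agent.H914.WeilCohomology

variable {k : Type u} [Field k] {𝒱 : VarClass k} {ops : CycleOps 𝒱}

/-- Numerical and homological equivalence agree on the products of the members of `𝒴` if and only if
they agree on all varieties dominated by products of members of `𝒳` and of `𝒴`. -/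
def NumHomIff (W : WeilCohomology.{u, v} ops) (𝒳 𝒴 : Set 𝒱.Obj) : Prop :=
  (∀ Y, IsProductOf 𝒴 Y → HomEqNum W Y) ↔
    ∀ Z, IsProductOf (𝒳 ∪ 𝒴) Z → ∀ V, Dominates W Z V → HomEqNum W V

end Pool.Agent.J4.H13.CZ
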