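import Pool.Agent.R908.TAbDefs
import Pool.Agent.J4.H13.CZ.StdDefs
import Pool.Agent.Helper11K9.Dens.DensDefs
import Pool.Agent.Helper11K9.Dens.RelDefs

/-!
# The `ℓ`-adic cohomology theories over an algebraic closure of a finite field: definitions
-/

open CategoryTheory AlgebraicGeometry Polynomial

universe u v

namespace Pool.Agent.J4.H13.CZ

open Pool.Agent.H914 Pool.Agent.H914.VarClass Pool.Agent.H914.VarClass.Obj
  Pool.Agent.H914.WeilCohomology Pool.Agent.W534 Pool.Agent.R908

/-- The complex roots of the non-zero polynomial `P` have the square `w` of the absolute value. -/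
def IsWeilPoly (P : ℚ[X]) (w : ℕ) : Prop :=
  P ≠ 0 ∧ ∀ z : ℂ, aeval z P = 0 → ‖z‖ ^ 2 = (w : ℝ)

/-- The operator `P(F)` is zero on the subspace `N`. -/
def KilledBy {K V : Type*} [Field K] [CharZero K] [AddCommGroup V] [Module K V]
    (F : Module.End K V) (N : Submodule K V) (P : ℚ[X]) : Prop :=
  ∀ x ∈ N, aeval F (P.map (algebraMap ℚ K)) x = 0

variable {k : Type u} [Field k] {𝒱 : VarClass k}

/-- Numerical and homological equivalence agree on `X`, the endomorphisms of the transcendental
cohomology `T(X)` (the orthogonal complement of all algebraic classes) which commute with Frobenius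
are given by algebraic correspondences of degree `0`, and `P` annihilates Frobenius on `T(X)`. -/
def RichAt {ops : CycleOps 𝒱} {W : WeilCohomology.{u, v} ops} {p : ℕ} (Φ : FrobSystem W p)
    (X : 𝒱.Obj) (P : ℚ[X]) : Prop :=
  HomEqNum W X ∧ CommutantSpannedOn (frobAll Φ X) (transcendental W X) (cycOps W X) ∧
    KilledBy (frobAll Φ X) (transcendental W X) P

/-- The `ℓ`-adic cohomology theories of the varieties over an algebraic closure of the field with `p`
elements, `ℓ ≠ p` (the theories `W ℓ` for `ℓ = p` and for the numbers `ℓ` which are not prime are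
arbitrary), with the Frobenius endomorphism of a model of each variety `X` over the field with
`p ^ e X` elements. -/
structure AdicTheories (ops : CycleOps 𝒱) (p : ℕ) where
  /-- the cohomology theories -/
  W : ℕ → WeilCohomology.{u, 0} ops
  /-- the Frobenius endomorphisms -/
  Φ : ∀ ℓ, FrobSystem (W ℓ) p
  /-- the degrees of the fields of definition -/
  e : 𝒱.Obj → ℕ
  deg : ∀ ℓ X, (Φ ℓ).e X = e X
  adic : ∀ (ℓ : ℕ) [Fact ℓ.Prime], ℓ ≠ p → Nonempty ((W ℓ).K ≃+* ℚ_[ℓ])

variable {ops : CycleOps 𝒱} {p : ℕ}

/-- For all `ℓ ≠ p` the polynomial `P`, with rational coefficients independent of `ℓ`, annihilates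
Frobenius on `H^b(X)`. -/
def KilledIn (F : AdicTheories ops p) (X : 𝒱.Obj) (b : ℕ) (P : ℚ[X]) : Prop :=
  ∀ (ℓ : ℕ) [Fact ℓ.Prime], ℓ ≠ p → KilledBy (frobAll (F.Φ ℓ) X) ((F.W ℓ).gr X b) P

/-- The variety `A` has the known properties of an abelian variety, for all `ℓ ≠ p`, and `P` is the
squarefree polynomial, with rational coefficients independent of `ℓ`, annihilating Frobenius on the
first cohomology of `A`; its roots have absolute value `q ^ (1 / 2)`, `q = p ^ e A` (Weil). -/
def IsAbelianPiece (F : AdicTheories ops p) (A : 𝒱.Obj) (P : ℚ[X]) : Prop :=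
  Squarefree P ∧ IsWeilPoly P (p ^ F.e A) ∧ KilledIn F A 1 P ∧
    ∃ (m : A.prod A ⟶ A) (D : A.Cycles), ∀ (ℓ : ℕ) [Fact ℓ.Prime], ℓ ≠ p →
      IsAbelianOverFinite (F.Φ ℓ) A m D

/-- For all `ℓ ≠ p`: numerical and homological equivalence agree on `X`, and the endomorphisms of the
transcendental cohomology `T(X)` (the orthogonal complement of all algebraic classes) which commute
with Frobenius are given by algebraic correspondences of degree `0` (the Tate conjecture for these
endomorphisms); and `P` is a squarefree polynomial, with rational coefficients independent of `ℓ`,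
annihilating Frobenius on `T(X)`, all of whose roots have absolute value `q ^ (dim X / 2)`,
`q = p ^ e X` (Frobenius is semisimple on `T(X)`, which is concentrated in the degree `dim X`). For
instance `X` is a curve (Tate) or a K3 surface (Ito, Ito and Koshikawa). -/
def IsRichPiece (F : AdicTheories ops p) (X : 𝒱.Obj) (P : ℚ[X]) : Prop :=
  Squarefree P ∧ IsWeilPoly P ((p ^ F.e X) ^ X.dim) ∧
    ∀ (ℓ : ℕ) [Fact ℓ.Prime], ℓ ≠ p → RichAt (F.Φ ℓ) X P

/-- The polynomials `Q b`, with rational coefficients independent of `ℓ`, annihilate Frobenius on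
`H^b(Y)`, and their roots have absolute value `q ^ (b / 2)`, `q = p ^ e Y` (Deligne: for instance the
characteristic polynomials of Frobenius). -/
def HasWeilPolynomials (F : AdicTheories ops p) (Y : 𝒱.Obj) (Q : ℕ → ℚ[X]) : Prop :=
  ∀ b, IsWeilPoly (Q b) ((p ^ F.e Y) ^ b) ∧ KilledIn F Y b (Q b)

end Pool.Agent.J4.H13.CZ
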