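import Pool.Agent.J4.H13.CZ.Fixed
import Pool.Agent.J4.H13.CZ.Defs
import Pool.Agent.Helper11K9.Dens.DensA

/-!
# Many primes
-/

open CategoryTheory AlgebraicGeometry TensorProduct Polynomial

universe u v w

set_option linter.unusedSectionVars false

namespace Pool.Agent.J4.H13.CZ

open Pool.Agent.H914 Pool.Agent.H914.VarClass Pool.Agent.H914.VarClass.Obj
  Pool.Agent.H914.WeilCohomology Pool.Agent.H281R3.HT Pool.Agent.W534 Pool.Agent.R908
  Pool.Agent.Helper11K9.Dens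

variable {k : Type u} [Field k] {𝒱 : VarClass k} {ops : CycleOps 𝒱} {p : ℕ}

section Fixed

variable {W : WeilCohomology.{u, 0} ops} {Φ : FrobSystem W p} {J : Type} {X : J → 𝒱.Obj}
  {P : J → ℚ[X]} {w : J → ℕ}

lemma aeval_map_rat {K L : Type*} [Field K] [Field L] [CharZero K] [CharZero L] [Algebra K L]
    (P : ℚ[X]) (a : L) : aeval a (P.map (algebraMap ℚ K)) = aeval a P :=
  Polynomial.aeval_map_algebraMap K a P

/-- Self-dual conjugacy classes. -/
lemma balFam_of_self (h : ∀ j, ∀ x : AlgebraicClosure W.K, aeval x (P j) = 0 →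
      minpoly W.K x = minpoly W.K ((w j : AlgebraicClosure W.K) / x)) (𝒴 : Set 𝒱.Obj) :
    BalFam Φ X (fun j => (P j).map (algebraMap ℚ W.K)) (fun j => (w j : W.K))
      (AlgebraicClosure W.K) 𝒴 := by
  intro l l' hl _ _
  have h1 : l.map (fun x => (x.1, minpoly W.K x.2)) = l.map (fun x => (x.1, minpoly W.K
      (algebraMap W.K (AlgebraicClosure W.K) (w x.1 : W.K) / x.2))) := by
    apply List.map_congr_left
    intro x hx
    have h2 := hl x hx
    rw [aeval_map_rat] at h2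
    rw [map_natCast, ← h x.1 x.2 h2]
  rw [h1]

variable {I : Type} {Y : I → 𝒱.Obj} {Q : I → ℕ → ℚ[X]}

/-- The index set of the cohomology groups of the `Y i`. -/
abbrev Deg (Y : I → 𝒱.Obj) : Type := Σ i : I, Fin (2 * (Y i).dim + 1)

/-- An eigenvalue of Frobenius on the cohomology of `Y` is a root of one of the polynomials. -/
lemma exists_deg {Y : 𝒱.Obj} {Q : ℕ → ℚ[X]}
    (hQ : ∀ b, ∀ x ∈ W.gr Y b, aeval (frobAll Φ Y) ((Q b).map (algebraMap ℚ W.K)) x = 0)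
    {a : AlgebraicClosure W.K} (ha : aeval a (minpoly W.K (fr Φ Y)) = 0) :
    ∃ b : Fin (2 * Y.dim + 1), aeval a (Q b) = 0 := by
  classical
  have h1 : aeval (fr Φ Y) (∏ b : Fin (2 * Y.dim + 1), (Q b).map (algebraMap ℚ W.K)) = 0 := by
    apply gr_ext (W.isInternal Y)
    intro b x hx
    rw [LinearMap.zero_apply]
    by_cases hb : 2 * Y.dim < b
    · rw [W.gr_eq_bot Y b hb, Submodule.mem_bot] at hx
      rw [hx, map_zero]
    · have hmem : (⟨b, by omega⟩ : Fin (2 * Y.dim + 1)) ∈ Finset.univ := Finset.mem_univ _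
      rw [← Finset.prod_erase_mul _ _ hmem, map_mul, Module.End.mul_apply]
      have h2 : aeval (fr Φ Y) ((Q b).map (algebraMap ℚ W.K)) x = 0 := hQ b x hx
      rw [show ((⟨b, by omega⟩ : Fin (2 * Y.dim + 1)) : ℕ) = b from rfl, h2, map_zero]
  have h2 := minpoly.dvd _ _ h1
  have h3 : aeval a (∏ b : Fin (2 * Y.dim + 1), (Q b).map (algebraMap ℚ W.K)) = 0 := by
    obtain ⟨g, hg⟩ := h2
    rw [hg, map_mul, ha, zero_mul]
  rw [map_prod, Finset.prod_eq_zero_iff] at h3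
  obtain ⟨b, -, hb⟩ := h3
  refine ⟨b, ?_⟩
  rwa [aeval_map_rat] at hb

/-- The translation of the balanced relations. -/
lemma balFam_of_rel {e : 𝒱.Obj → ℕ} (he : ∀ X, Φ.e X = e X)
    (hQ : ∀ i b, ∀ x ∈ W.gr (Y i) b, aeval (frobAll Φ (Y i)) ((Q i b).map (algebraMap ℚ W.K)) x = 0)
    {w' : Deg Y → ℕ}
    (h : RelBalanced (Sum.elim P (fun y : Deg Y => Q y.1 y.2))
      (Sum.elim (fun j => e (X j)) (fun y : Deg Y => e (Y y.1))) (Sum.elim w w') p W.K
      (AlgebraicClosure W.K)) :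
    BalFam Φ X (fun j => (P j).map (algebraMap ℚ W.K)) (fun j => (w j : W.K))
      (AlgebraicClosure W.K) (Set.range Y) := by
  intro l l' hl hl' hrel
  have hlist : ∀ l' : List (𝒱.Obj × AlgebraicClosure W.K),
      (∀ y ∈ l', y.1 ∈ Set.range Y ∧ aeval y.2 (minpoly W.K (fr Φ y.1)) = 0) →
      ∃ l'' : List (Deg Y × AlgebraicClosure W.K),
        (∀ x ∈ l'', aeval x.2 (Q x.1.1 x.1.2) = 0) ∧
        l''.map (fun x => (x.2, e (Y x.1.1))) = l'.map (fun y => (y.2, Φ.e y.1)) := by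
    intro l'
    induction l' with
    | nil => intro _; exact ⟨[], fun x hx => absurd hx List.not_mem_nil, rfl⟩
    | cons y l' ih =>
      intro h
      obtain ⟨l'', h1, h2⟩ := ih (fun z hz => h z (List.mem_cons_of_mem _ hz))
      obtain ⟨⟨i, hi⟩, h3⟩ := h y List.mem_cons_self
      obtain ⟨y1, y2⟩ := y
      have hi' : Y i = y1 := hi
      subst hi'
      obtain ⟨b, hb⟩ := exists_deg (hQ i) h3
      refine ⟨(⟨i, b⟩, y2) :: l'', ?_, ?_⟩
      · intro x hx
        rcases List.mem_cons.1 hx with rfl | hx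
        · exact hb
        · exact h1 x hx
      · rw [List.map_cons, List.map_cons, h2, he]
  obtain ⟨l'', h1, h2⟩ := hlist l' hl'
  have h3 := h l l'' (fun x hx => by
    have h4 := hl x hx
    rw [aeval_map_rat] at h4
    exact h4) h1 (by
    obtain ⟨N, M, hN, h4, h5⟩ := hrel
    rw [← h2, List.map_append, List.prod_append, List.map_map, List.map_map] at h5
    rw [← h2] at h4
    refine ⟨N, M, hN, fun x hx => ?_, fun x hx => ?_, ?_⟩
    · have h6 := h4 (x.2, Φ.e (X x.1)) (List.mem_append_left _ (List.mem_map_of_mem hx))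
      change e (X x.1) ∣ N
      rw [← he]
      exact h6
    · exact h4 (x.2, e (Y x.1.1)) (List.mem_append_right _ (List.mem_map_of_mem hx))
    · rw [← h5]
      congr 2
      apply List.map_congr_left
      intro x _
      change x.2 ^ (N / e (X x.1)) = x.2 ^ (N / Φ.e (X x.1))
      rw [he])
  have h4 : l.map (fun x => (x.1, minpoly W.K (algebraMap W.K (AlgebraicClosure W.K)
      (w x.1 : W.K) / x.2))) = l.map (fun x => (x.1, minpoly W.K
        ((w x.1 : AlgebraicClosure W.K) / x.2))) := by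
    apply List.map_congr_left
    intro x _
    rw [map_natCast]
  rw [h4]
  exact h3

end Fixed

section Zero

variable {J₀ J₁ : Type} [Fintype J₀] [Fintype J₁]
  {P : J₀ ⊕ J₁ → ℚ[X]} {e w : J₀ ⊕ J₁ → ℕ}

/-- No exotic relations. -/
theorem relBalanced_of_bot (hW : IsWeilFamily P w) (he : ∀ j, 0 < e j) (p : ℕ)
    (h0 : relSpace Sum.inl P e = ⊥) (K L' : Type*) [Field K] [Field L'] [CharZero L']
    [IsAlgClosed L'] [Algebra K L'] : RelBalanced P e w p K L' := by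
  classical
  obtain ⟨E, ⟨_, _⟩, hE, hspl⟩ := exists_E hW
  obtain ⟨τ⟩ : Nonempty (E →+* L') :=
    ⟨(IsAlgClosed.lift (R := ℚ) (S := E) (M := L') : _ →ₐ[ℚ] _)⟩
  intro l l' hl hl' hrel
  refine perm_rel' hW he hE τ (σ := 1) (fun j z _ => rfl) ?_ l l' hl hl' hrel
  intro f hf _
  rw [h0, Submodule.mem_bot] at hf
  exact hf

/-- The space of the relative relations. -/
lemma relSpace_eq {P : J₀ → ℚ[X]} {Q : J₁ → ℚ[X]} {e : J₀ → ℕ} {e' : J₁ → ℕ} :
    relSpace Sum.inl (Sum.elim P Q) (Sum.elim e e') = relativeSpace P e Q e' := by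
  rw [relSpace, exoticSpace, Submodule.map_span, relativeSpace]
  congr 1
  ext f
  constructor
  · rintro ⟨_, ⟨r, hr, rfl⟩, rfl⟩
    refine ⟨fun j => r (Sum.inl j), ⟨fun j => r (Sum.inr j), ?_⟩, rfl⟩
    have h1 : (Sum.elim (fun j => r (Sum.inl j)) (fun j => r (Sum.inr j)) : J₀ ⊕ J₁ → ℂ → ℤ) = r := by
      funext x
      cases x <;> rfl
    rw [h1]
    exact hr
  · rintro ⟨r, ⟨s, hs⟩, rfl⟩
    exact ⟨_, ⟨_, hs, rfl⟩, rfl⟩

end Zero

section Density

variable (F : AdicTheories ops p) {J : Type} [Fintype J] {X : J → 𝒱.Obj} {P : J → ℚ[X]}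

/-- The factors of the dualities. -/
lemma exists_weights (hX : ∀ j, IsAbelianPiece F (X j) (P j) ∨ IsRichPiece F (X j) (P j)) :
    ∃ w : J → ℕ, (p ≠ 0 → IsWeilFamily P w) ∧ ∀ (ℓ : ℕ) [Fact ℓ.Prime], ℓ ≠ p → ∀ j,
      GoodPiece (F.Φ ℓ) (X j) ((P j).map (algebraMap ℚ (F.W ℓ).K)) (w j : (F.W ℓ).K) := by
  classical
  have key : ∀ j, ∃ w : ℕ, (p ≠ 0 → 0 < w) ∧ (∀ z : ℂ, aeval z (P j) = 0 → ‖z‖ ^ 2 = (w : ℝ)) ∧
      P j ≠ 0 ∧ ∀ (ℓ : ℕ) [Fact ℓ.Prime], ℓ ≠ p →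
        GoodPiece (F.Φ ℓ) (X j) ((P j).map (algebraMap ℚ (F.W ℓ).K)) (w : (F.W ℓ).K) := by
    intro j
    have hsq : Squarefree (P j) → ∀ ℓ, Squarefree ((P j).map (algebraMap ℚ (F.W ℓ).K)) := by
      intro h ℓ
      exact (PerfectField.separable_iff_squarefree.2 h).map.squarefree
    rcases hX j with ⟨h1, h2, h5, m, D, h3⟩ | ⟨h1, h2, h3⟩
    · refine ⟨p ^ F.e (X j), fun h => pow_pos (Nat.pos_of_ne_zero h) _, h2.2, h2.1,
        fun ℓ _ hℓ => ?_⟩
      have h4 := good_ab (h3 ℓ hℓ) (hsq h1 ℓ) (fun x hx => h5 ℓ hℓ x hx)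
      rw [F.deg] at h4
      rw [Nat.cast_pow]
      exact h4
    · refine ⟨(p ^ F.e (X j)) ^ (X j).dim,
        fun h => pow_pos (pow_pos (Nat.pos_of_ne_zero h) _) _, h2.2, h2.1,
        fun ℓ _ hℓ => ?_⟩
      have h4 := good_rich (h3 ℓ hℓ).1 (hsq h1 ℓ) (fun x hx => (h3 ℓ hℓ).2.2 x hx)
        (h3 ℓ hℓ).2.1
      rw [F.deg] at h4
      rw [Nat.cast_pow, Nat.cast_pow]
      exact h4
  choose w h1 h2 h3 h4 using key
  exact ⟨w, fun h => ⟨h3, fun j => h1 j h, h2⟩, fun ℓ _ hℓ j => h4 j ℓ hℓ⟩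

include F in
omit [Fintype J] in
lemma p_ne : p ≠ 0 := by
  have h := (F.Φ 0).p_pos
  omega

variable {I : Type} [Fintype I] {Y : I → 𝒱.Obj} {Q : I → ℕ → ℚ[X]}

lemma weil_family (hp : p ≠ 0) {w : J → ℕ} (hw : IsWeilFamily P w)
    (hQ : ∀ i, HasWeilPolynomials F (Y i) (Q i)) :
    IsWeilFamily (Sum.elim P (fun y : Deg Y => Q y.1 y.2))
      (Sum.elim w (fun y : Deg Y => (p ^ F.e (Y y.1)) ^ (y.2 : ℕ))) where
  ne := by
    rintro (j | y)
    · exact hw.ne j
    · exact (hQ y.1 y.2).1.1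
  pos := by
    rintro (j | y)
    · exact hw.pos j
    · exact pow_pos (pow_pos (Nat.pos_of_ne_zero hp) _) _
  abs := by
    rintro (j | y)
    · exact hw.abs j
    · exact (hQ y.1 y.2).1.2

/-- **The conjecture D for products, for many primes, in terms of the exotic relations.** -/
theorem density_rank (hX : ∀ j, IsAbelianPiece F (X j) (P j) ∨ IsRichPiece F (X j) (P j))
    (hQ : ∀ i, HasWeilPolynomials F (Y i) (Q i)) :
    HasLowerDensity {ℓ | NumHomIff (F.W ℓ) (Set.range X) (Set.range Y)}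
      ((1 / 2 : ℝ) ^ relativeRank P (fun j => F.e (X j)) (fun y : Deg Y => Q y.1 y.2)
        (fun y : Deg Y => F.e (Y y.1))) ∧
    (relativeRank P (fun j => F.e (X j)) (fun y : Deg Y => Q y.1 y.2)
        (fun y : Deg Y => F.e (Y y.1)) = 0 →
      ∀ (ℓ : ℕ) [Fact ℓ.Prime], ℓ ≠ p → NumHomIff (F.W ℓ) (Set.range X) (Set.range Y)) := by
  classical
  obtain ⟨w, hw, hG⟩ := exists_weights F hX
  have hp := p_ne F
  have hWF := weil_family F hp (hw hp) hQ
  have hepos : ∀ j, 0 < (Sum.elim (fun j => F.e (X j)) (fun y : Deg Y => F.e (Y y.1)) :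
      J ⊕ Deg Y → ℕ) j := by
    rintro (j | y)
    · change 0 < F.e (X j)
      rw [← F.deg 0]
      exact (F.Φ 0).e_pos _
    · change 0 < F.e (Y y.1)
      rw [← F.deg 0]
      exact (F.Φ 0).e_pos _
  have hfin : ∀ (ℓ : ℕ) [Fact ℓ.Prime], ℓ ≠ p →
      RelBalanced (Sum.elim P (fun y : Deg Y => Q y.1 y.2))
        (Sum.elim (fun j => F.e (X j)) (fun y : Deg Y => F.e (Y y.1)))
        (Sum.elim w (fun y : Deg Y => (p ^ F.e (Y y.1)) ^ (y.2 : ℕ))) p (F.W ℓ).K
        (AlgebraicClosure (F.W ℓ).K) →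
      NumHomIff (F.W ℓ) (Set.range X) (Set.range Y) := by
    intro ℓ _ hℓ hbal
    constructor
    · intro h𝒴
      exact fun Z hZ V hV => (homEqNum_of_good (hG ℓ hℓ)
        (balFam_of_rel (F.deg ℓ) (fun i b x hx => (hQ i b).2 ℓ hℓ x hx) hbal) h𝒴 hZ).image hV
    · intro h Z hZ
      exact h Z (isProductOf_mono Set.subset_union_right hZ) Z (dominates_refl Z)
  refine ⟨?_, ?_⟩
  · rw [relativeRank, ← relSpace_eq]
    exact density_rel hWF hepos p (Nat.pos_of_ne_zero hp) (fun ℓ => (F.W ℓ).K)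
      (fun ℓ _ hℓ => F.adic ℓ hℓ) _ (fun ℓ _ hℓ hbal => hfin ℓ hℓ hbal)
  · intro h0 ℓ _ hℓ
    have h1 : relSpace Sum.inl (Sum.elim P (fun y : Deg Y => Q y.1 y.2))
        (Sum.elim (fun j => F.e (X j)) (fun y : Deg Y => F.e (Y y.1))) = ⊥ := by
      have := finite_rel hWF (e := Sum.elim (fun j => F.e (X j)) (fun y : Deg Y => F.e (Y y.1)))
        (Sum.inl : J → J ⊕ Deg Y)
      rw [relativeRank, ← relSpace_eq] at h0
      exact Submodule.finrank_eq_zero.1 h0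
    have : CharZero (AlgebraicClosure (F.W ℓ).K) := inferInstance
    exact hfin ℓ hℓ (relBalanced_of_bot hWF hepos p h1 _ _)

end Density

end Pool.Agent.J4.H13.CZ
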