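import Pool.Agent.R908.RatD
import Pool.Agent.R908.KoC

/-!
# Varieties generated by one piece, for one cohomology theory
-/

open CategoryTheory AlgebraicGeometry TensorProduct Polynomial

universe u v w w'

namespace Pool.Agent.J4.H13.CZ

open Pool.Agent.H914 Pool.Agent.H914.VarClass Pool.Agent.H914.VarClass.Obj
  Pool.Agent.H914.WeilCohomology Pool.Agent.H281R3.HT Pool.Agent.W534 Pool.Agent.R908

variable {k : Type u} [Field k] {𝒱 : VarClass k} {ops : CycleOps 𝒱}
  {W : WeilCohomology.{u, v} ops} {p : ℕ} {Φ : FrobSystem W p}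

section Prod

variable {P : Mot W → Prop} (hP : ∀ A B : Mot W, P A → P B → P (A.tensor B))
include hP

/-- The identity of a product. -/
lemma id_prod {X Y : 𝒱.Obj} (hX : LinearMap.id ∈ RetOp W P X X)
    (hY : LinearMap.id ∈ RetOp W P Y Y) :
    LinearMap.id ∈ RetOp W P (X.prod Y) (X.prod Y) := by
  have h := RetOp.ext hP hX hY
  rwa [extHom_id] at h

lemma id_products {S : Set 𝒱.Obj} (hS : ∀ X ∈ S, LinearMap.id ∈ RetOp W P X X) {Z : 𝒱.Obj}
    (hZ : IsProductOf S Z) : LinearMap.id ∈ RetOp W P Z Z := by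
  induction hZ with
  | base h => exact hS _ h
  | prod _ _ h1 h2 => exact id_prod hP h1 h2

end Prod

/-- The cohomology of `X` is generated by one piece, on which Frobenius is annihilated by the
squarefree polynomial `P` and the duality has the factor `c`. -/
def GoodPiece (Φ : FrobSystem W p) (X : 𝒱.Obj) (P : W.K[X]) (c : W.K) : Prop :=
  ∃ (e : W.H X →ₗ[W.K] W.H X) (δ : ℤ) (θ : W.H X →ₗ[W.K] W.H X), IsPiece Φ X e P c δ θ ∧
    ∀ (L : Type v) [Field L] [Algebra W.K L] (Q : Mot (baseW W L) → Prop),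
      (∀ A B : Mot (baseW W L), Q A → Q B → Q (A.tensor B)) →
      (∀ B : Mot (baseW W L), B.Alg → Q B) → upW L e ∈ RetOp (baseW W L) Q X X →
      LinearMap.id ∈ RetOp (baseW W L) Q X X

/-- The polynomial of a piece can be changed. -/
lemma isPiece_change {X : 𝒱.Obj} {e : W.H X →ₗ[W.K] W.H X} {P P' : W.K[X]} {c : W.K} {δ : ℤ}
    {θ : W.H X →ₗ[W.K] W.H X} (h : IsPiece Φ X e P c δ θ) (hsq : Squarefree P')
    (hP : aeval (fr Φ X) P' ∘ₗ e = 0) : IsPiece Φ X e P' c δ θ :=
  { mem := h.mem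
    idem := h.idem
    comm := h.comm
    sqf := hsq
    poly := hP
    tate := h.tate
    θ_mem := h.θ_mem
    c_ne := h.c_ne
    θ_eq := h.θ_eq
    nondeg := h.nondeg }

section Ab

variable {A : 𝒱.Obj} {m : A.prod A ⟶ A} {D : A.Cycles}

/-- Abelian varieties. -/
theorem good_ab (hA : IsAbelianOverFinite Φ A m D) {P : W.K[X]} (hsq : Squarefree P)
    (hP : ∀ x ∈ W.gr A 1, aeval (fr Φ A) P x = 0) : GoodPiece Φ A P ((p : W.K) ^ Φ.e A) := by
  classical
  obtain ⟨π, hπ, hK⟩ := exists_projs hA.abelianLike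
  have hπmem : ∀ x, π 1 x ∈ W.gr A 1 := hπ.mem_gr 1
  refine ⟨π 1, _, _, isPiece_change (isPiece_one hA hπ hK) hsq ?_, ?_⟩
  · apply LinearMap.ext
    intro x
    exact hP _ (hπmem x)
  intro L _ _ Q hQ hQalg h1
  by_cases hone : (1 : W.H A) = 0
  · have h2 : (LinearMap.id : (baseW W L).H A →ₗ[(baseW W L).K] (baseW W L).H A) = 0 := by
      apply LinearMap.ext
      intro (x : L ⊗[W.K] W.H A)
      change x = 0
      refine tmul_induction (P := fun x : L ⊗[W.K] W.H A => x = 0) rfl ?_ ?_ x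
      · intro x y hx hy
        rw [hx, hy, add_zero]
      · intro l a
        have h3 : a = 0 := by
          rw [← one_mul a, hone, zero_mul]
        rw [h3, TensorProduct.tmul_zero]
    rw [h2]
    exact Submodule.zero_mem _
  obtain ⟨c, hc, hc1⟩ := exists_point hA hone
  have hK' : ∀ i, upW L (π i) ∈ KOp (baseW W L) A A 0 := fun i => upW_mem (hK i)
  have hπ' : IsProjs (baseW W L) A (fun i => upW L (π i)) := isProjs_base hπ
  refine id_mem_retOp (W := baseW W L) (isAbelianLike_base hA.abelianLike) hπ' hK' hQ ?_ h1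
  have hc' : ((1 : L) ⊗ₜ[W.K] c : (baseW W L).H A) ∈ spanCycles (baseW W L) A A.dim :=
    one_tmul_span hc
  have htr : (baseW W L).tr A ((1 : L) ⊗ₜ[W.K] c : L ⊗[W.K] W.H A) = 1 := by
    have h3 : formBase L (W.tr A) ((1 : L) ⊗ₜ[W.K] c) = 1 * algebraMap W.K L (W.tr A c) :=
      formBase_tmul _ _ _
    rw [hc1, map_one, one_mul] at h3
    exact h3
  refine RetOp.self (B := Hi hπ' hK' 0) (hQalg _ ?_)
  refine ⟨1, fun _ => (1 : L) ⊗ₜ[W.K] c, fun _ => 1, fun _ => A.dim, fun _ => hc', fun x => ?_⟩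
  rw [Finset.univ_unique, Finset.sum_singleton]
  exact projs_zero_alg hπ' hc' htr x

end Ab

section Rich

variable {X : 𝒱.Obj}

/-- Varieties with many correspondences on the transcendental cohomology. -/
theorem good_rich (hD : HomEqNum W X) {P : W.K[X]} (hsq : Squarefree P)
    (hP : ∀ x ∈ transcendental W X, aeval (fr Φ X) P x = 0)
    (hT : CommutantSpannedOn (frobAll Φ X) (transcendental W X) (cycOps W X)) :
    GoodPiece Φ X P (((p : W.K) ^ Φ.e X) ^ X.dim) := by
  classical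
  obtain ⟨s⟩ := exists_tSplit hD
  refine ⟨s.eT, _, _, s.isPiece hsq hP hT, ?_⟩
  intro L _ _ Q hQ hQalg h1
  have h2 : (LinearMap.id : (baseW W L).H X →ₗ[(baseW W L).K] (baseW W L).H X) =
      ∑ j, upW L (s.eA j) + upW L s.eT := by
    have h3 : (LinearMap.id : W.H X →ₗ[W.K] W.H X).baseChange L =
        ∑ j, (s.eA j).baseChange L + s.eT.baseChange L := by
      rw [← s.sum, LinearMap.baseChange_add]
      congr 1
      exact map_sum (LinearMap.baseChangeHom W.K L (W.H X) (W.H X)) _ _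
    rw [LinearMap.baseChange_id] at h3
    exact h3
  rw [h2]
  refine Submodule.add_mem _ (Submodule.sum_mem _ (fun j _ => ?_)) h1
  obtain ⟨h3, h4, h5⟩ := s.alg_up L j
  exact RetOp.self (B := (⟨X, upW L (s.eA j), h3, h4⟩ : Mot (baseW W L))) (hQalg _ h5)

end Rich

section Main

variable {ι : Type w} {X : ι → 𝒱.Obj} {P : ι → W.K[X]} {c : ι → W.K}

/-- The relations between the roots of the polynomials and the eigenvalues of Frobenius on the
cohomology of the members of `𝒴` are balanced. -/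
def BalFam (Φ : FrobSystem W p) (X : ι → 𝒱.Obj) (P : ι → W.K[X]) (c : ι → W.K)
    (L : Type v) [Field L] [Algebra W.K L] (𝒴 : Set 𝒱.Obj) : Prop :=
  ∀ (l : List (ι × L)) (l' : List (𝒱.Obj × L)), (∀ x ∈ l, aeval x.2 (P x.1) = 0) →
    (∀ y ∈ l', y.1 ∈ 𝒴 ∧ aeval y.2 (minpoly W.K (fr Φ y.1)) = 0) →
    FrobRel p (l.map (fun x => (x.2, Φ.e (X x.1))) ++ l'.map (fun y => (y.2, Φ.e y.1))) →
    (l.map (fun x => (x.1, minpoly W.K x.2))).Perm
      (l.map (fun x => (x.1, minpoly W.K (algebraMap W.K L (c x.1) / x.2))))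

/-- **The conjecture D for the products of varieties generated by one piece with other
varieties.** -/
theorem homEqNum_of_good (hG : ∀ i, GoodPiece Φ (X i) (P i) (c i)) {𝒴 : Set 𝒱.Obj}
    (hbal : BalFam Φ X P c (AlgebraicClosure W.K) 𝒴)
    (h𝒴 : ∀ Y, IsProductOf 𝒴 Y → HomEqNum W Y) {Z : 𝒱.Obj}
    (hZ : IsProductOf (Set.range X ∪ 𝒴) Z) : HomEqNum W Z := by
  classical
  choose e δ θ hpiece hgen using hG
  have hroots : ∀ i, ∃ R : Finset (AlgebraicClosure W.K), IsRoots (P i) R := fun i => by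
    obtain ⟨R, h1, h2⟩ := R908.exists_roots (L := AlgebraicClosure W.K) (hpiece i).sqf
    exact ⟨R, h1, h2⟩
  choose R hR using hroots
  let E : ι → PieceData Φ := fun i =>
    { V := X i, e := e i, P := P i, c := c i, δ := δ i, θ := θ i, h := hpiece i }
  have hR' : ∀ i, IsRoots (E i).P (R i) := hR
  have hbal' : R908.Balanced E (AlgebraicClosure W.K) 𝒴 := hbal
  apply homEqNum_base (L := AlgebraicClosure W.K)
  refine RetOp.homEqNum (P := WCls (L := AlgebraicClosure W.K) E hR' 𝒴)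
    (fun B hB => WCls.num hbal' (fun Y hY => homEqNum_up (h𝒴 Y hY)) B hB) ?_
  refine id_products WCls.tensor ?_ hZ
  rintro Y (⟨i, rfl⟩ | hY)
  · refine hgen i (AlgebraicClosure W.K) _ WCls.tensor (fun B hB => WCls.alg hB) ?_
    rw [(hpiece i).sum_ep (hR i)]
    exact Submodule.sum_mem _ (fun b hb => RetOp.self (B := letD E hR' (i, b)) (WCls.letter hb))
  · exact id_mem_other hY

end Main

end Pool.Agent.J4.H13.CZ
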