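import Pool.Agent.R908.AbDefs
import Pool.Agent.H914R2.CorrDefs
import Pool.Agent.H914R2.StdDefs
import Pool.Agent.H914R2.HodgeDefs
import Pool.Agent.J4.H13.CZ.StdDefs
import Pool.Agent.Helper8K9.AV.LinDefs
import Pool.Agent.Helper11K9.Dens.DensDefs
import Pool.Agent.Helper11K9.Dens.PairDefs

/-!
# The `ℓ`-adic cohomology theories with the action of a Galois group: definitions
-/

open CategoryTheory AlgebraicGeometry Polynomial

universe u v

namespace Pool.Agent.J4.H13.CZ

open Pool.Agent.H914 Pool.Agent.H914.VarClass Pool.Agent.H914.VarClass.Obj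
  Pool.Agent.H914.WeilCohomology Pool.Agent.R908 Pool.Agent.Helper8K9.AV

section Lin

variable {K : Type*} [Field K] {A : Type*} [Ring A] [Algebra K A] {B : Type*} [Ring B]
  [Algebra K B]

/-- The automorphism `σ` of the algebra `A` preserves the degrees, and multiplies the orientation by
the non-zero constant `c`. -/
def IsSimil (gr : ℕ → Submodule K A) (tr : A →ₗ[K] K) (σ : A ≃ₐ[K] A) (c : K) : Prop :=
  c ≠ 0 ∧ (∀ i a, σ a ∈ gr i ↔ a ∈ gr i) ∧ ∀ a, tr (σ a) = c * tr a

/-- The homomorphism `f` is compatible with the automorphisms `s` and `t`. -/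
def Compat (f : A →ₐ[K] B) (s : A ≃ₐ[K] A) (t : B ≃ₐ[K] B) : Prop := ∀ a, t (f a) = f (s a)

/-- The automorphism `σ` maps the subspace `S` onto itself. -/
def Keeps (S : Submodule K A) (σ : A ≃ₐ[K] A) : Prop := ∀ a, σ a ∈ S ↔ a ∈ S

/-- The element `x` is an eigenvector of `σ`. -/
def IsEigenOf (σ : A ≃ₐ[K] A) (x : A) : Prop := ∃ c : K, c ≠ 0 ∧ σ x = c • x

/-- The operators in `E` and the automorphisms in `G`. -/
def joinOps (E : Set (Module.End K A)) (G : Set (A ≃ₐ[K] A)) : Set (A → A) :=
  {f | (∃ φ ∈ E, ∀ x, f x = φ x) ∨ ∃ g ∈ G, ∀ x, f x = g x}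

/-- The form `tr (x * ξ ^ n * y)`. -/
def twForm (tr : A →ₗ[K] K) (ξ : A) (n : ℕ) (x y : A) : K :=
  tr (x * (ξ ^ n * y))

/-- The subspace `N` is semisimple under the maps in `C`, and the linear operators on `N` commuting
with the maps in `C` are the polynomials in an operator `e` with `P(e) = 0` and with the adjoint
`Q(e)` for the form `β`. -/
def IsCentral {K V : Type*} [Field K] [CharZero K] [AddCommGroup V] [Module K V]
    (N : Submodule K V) (β : V → V → K) (C : Set (V → V)) (P Q : ℚ[X]) : Prop :=
  SemisimpleUnder N C ∧ HasCommutant N β C P Q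

end Lin

variable {k : Type u} [Field k] {𝒱 : VarClass k}

section One

variable {ops : CycleOps 𝒱}

/-- A symmetry of a Weil cohomology theory: a family of automorphisms `σ` of the graded algebras
`H(X)` over the coefficient field `K`, compatible with the two projections of a product, which
preserves the spaces of `K`-linear combinations of classes of algebraic cycles, and multiplies the
orientation of `X` by a non-zero constant `c X`. For instance all varieties in the class have models
over a subfield `k₀` of `k`, and `σ` is the action of an element of the Galois group of `k₀` on the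
`ℓ`-adic cohomology. -/
structure GalSym (W : WeilCohomology.{u, v} ops) where
  /-- the automorphisms -/
  σ : ∀ X : 𝒱.Obj, W.H X ≃ₐ[W.K] W.H X
  /-- the multipliers -/
  c : 𝒱.Obj → W.K
  sim : ∀ X, IsSimil (W.gr X) (W.tr X) (σ X) (c X)
  fst : ∀ X Y, Compat (W.map (fst X Y)) (σ X) (σ (X.prod Y))
  snd : ∀ X Y, Compat (W.map (snd X Y)) (σ Y) (σ (X.prod Y))
  cycles : ∀ (X : 𝒱.Obj) (p : ℕ), Keeps (spanCycles W X p) (σ X)

variable {W : WeilCohomology.{u, v} ops}

/-- The operators on the cohomology of `X` given by the algebraic correspondences of degree `0`. -/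
def endCorr (W : WeilCohomology.{u, v} ops) (X : 𝒱.Obj) : Set (Module.End W.K (W.H X)) :=
  {φ | ∃ z, (X.prod X).IsCyc X.dim z ∧ φ = W.corr (W.cl (X.prod X) z)}

/-- The operators on the cohomology of `X`: the algebraic correspondences of degree `0` and the
symmetries in `𝒢`. -/
def allOps (𝒢 : Set (GalSym W)) (X : 𝒱.Obj) : Set (W.H X → W.H X) :=
  joinOps (endCorr W X) {g | ∃ S ∈ 𝒢, g = S.σ X}

/-- The cohomology of `A` behaves like that of an abelian variety with the addition `m` and the
polarisation `D`, the class of which is an eigenvector of the symmetries, and `H^1(A)` is semisimple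
under the endomorphisms and the symmetries; the linear operators commuting with them are the
polynomials in an operator `e` with `P(e) = 0` and with the adjoint `Q(e)` for the form
`tr (x * D ^ (dim A - 1) * y)`. -/
structure AbelianAt (𝒢 : Set (GalSym W)) (A : 𝒱.Obj) (m : A.prod A ⟶ A) (D : A.Cycles)
    (P Q : ℚ[X]) : Prop where
  abelianLike : IsAbelianLike W A m
  divisor : A.IsCyc 1 D
  lefschetz : HardLefschetz W A D
  eigen : ∀ S ∈ 𝒢, IsEigenOf (S.σ A) (W.cl A D)
  central : IsCentral (W.gr A 1) (twForm (W.tr A) (W.cl A D) (A.dim - 1)) (allOps 𝒢 A) P Q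

/-- Numerical and homological equivalence agree on `X`, the transcendental cohomology `T(X)` (the
orthogonal complement of all algebraic classes) is concentrated in the degree `dim X`, and it is
semisimple under the algebraic correspondences of degree `0` and the symmetries; the linear operators
commuting with them are the polynomials in an operator `e` with `P(e) = 0` and with the adjoint
`Q(e)` for the form `tr (x * y)`. -/
structure TransAt (𝒢 : Set (GalSym W)) (X : 𝒱.Obj) (P Q : ℚ[X]) : Prop where
  num : HomEqNum W X
  deg : transcendental W X ≤ W.gr X X.dim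
  central : IsCentral (transcendental W X) (twForm (W.tr X) 1 0) (allOps 𝒢 X) P Q

end One

/-- The `ℓ`-adic cohomology theories of a class of varieties over `k`, `ℓ ≠ p` (the theories `W ℓ`
for `ℓ = p` and for the numbers `ℓ` which are not prime are arbitrary), each with a set of
symmetries: the action of the absolute Galois group of a subfield `k₀` over which the varieties are
defined. -/
structure GaloisTheories (ops : CycleOps 𝒱) (p : ℕ) where
  /-- the cohomology theories -/
  W : ℕ → WeilCohomology.{u, 0} ops
  /-- the Galois group -/
  G : ∀ ℓ, Set (GalSym (W ℓ))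
  adic : ∀ (ℓ : ℕ) [Fact ℓ.Prime], ℓ ≠ p → Nonempty ((W ℓ).K ≃+* ℚ_[ℓ])

variable {ops : CycleOps 𝒱} {p : ℕ}

/-- For all `ℓ ≠ p` the variety `A` has the known properties of an abelian variety with the addition
`m` and the polarisation `D` over a finitely generated field `k₀`: the cohomology is generated by
`H^1(A)`, on which `m` is additive, hard Lefschetz holds for `D`, the class of `D` is an eigenvector
of the Galois group, `H^1(A)` is semisimple under the endomorphisms and the Galois group, and the
linear operators on `H^1(A)` commuting with the endomorphisms and the Galois group are the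
polynomials in an operator `e` with `P(e) = 0` and with the adjoint `Q(e)` (Tate, Zarhin, Mori,
Faltings: they are `E ⊗ K` for the algebra `E = ℚ[e]` of the elements of `End(A) ⊗ ℚ` which commute
with all endomorphisms and are defined over `k₀`; the adjunction for the form
`tr (x * D ^ (dim A - 1) * y)` is the Rosati involution, which is the complex conjugation on the
CM algebra `E`). -/
def IsAbelianWith (F : GaloisTheories ops p) (A : 𝒱.Obj) (P Q : ℚ[X]) : Prop :=
  ∃ (m : A.prod A ⟶ A) (D : A.Cycles), ∀ (ℓ : ℕ) [Fact ℓ.Prime], ℓ ≠ p →
    AbelianAt (F.G ℓ) A m D P Q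

/-- For all `ℓ ≠ p`: numerical and homological equivalence agree on `X`, the transcendental cohomology
`T(X)` is concentrated in the degree `dim X` and semisimple under the algebraic correspondences of
degree `0` and the Galois group, and the linear operators on `T(X)` commuting with them are the
polynomials in an operator `e` with `P(e) = 0` and with the adjoint `Q(e)`. For instance `X` is a
curve, or a K3 surface over an algebraic closure of a finite field. -/
def IsTransWith (F : GaloisTheories ops p) (X : 𝒱.Obj) (P Q : ℚ[X]) : Prop :=
  ∀ (ℓ : ℕ) [Fact ℓ.Prime], ℓ ≠ p → TransAt (F.G ℓ) X P Q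

end Pool.Agent.J4.H13.CZ
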