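import Pool.Agent.J4.H13.CZ.Mixed
import Pool.Agent.Helper8K9.AV.Dens

/-!
# Numerical and homological equivalence for many primes, over arbitrary fields
-/

open CategoryTheory AlgebraicGeometry TensorProduct Polynomial

universe u v w w'

namespace Pool.Agent.J4.H13.CZ

open Pool.Agent.H914 Pool.Agent.H914.VarClass Pool.Agent.H914.VarClass.Obj
  Pool.Agent.H914.WeilCohomology Pool.Agent.H281R3.HT Pool.Agent.R908
  Pool.Agent.Helper8K9.AV Pool.Agent.Helper11K9.Dens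

variable {k : Type u} [Field k] {𝒱 : VarClass k} {ops : CycleOps 𝒱} {p : ℕ}
  (F : GaloisTheories ops p) {J : Type} {X : J → 𝒱.Obj} {P Q : J → ℚ[X]}

/-- The varieties are of one of the two kinds. -/
lemma twoKinds_of (hPQ : ∀ j, IsConjugationPair (P j) (Q j))
    (hX : ∀ j, IsAbelianWith F (X j) (P j) (Q j) ∨ IsTransWith F (X j) (P j) (Q j))
    (ℓ : ℕ) [Fact ℓ.Prime] (hℓ : ℓ ≠ p)
    (hloc : ∀ j, LocallyConjugate (F.W ℓ).K (P j) (Q j)) :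
    ∀ Y ∈ Set.range X, TwoKinds (syms (F.G ℓ)) Y := by
  rintro _ ⟨j, rfl⟩
  rcases hX j with ⟨m, D, h⟩ | h
  · exact twoKinds_of_abelianAt (h ℓ hℓ) (hPQ j).1 (hloc j)
  · exact twoKinds_of_transAt (h ℓ hℓ) (hPQ j).1 (hloc j)

/-- **One prime.** -/
theorem numHomIff_of_local (hPQ : ∀ j, IsConjugationPair (P j) (Q j))
    (hX : ∀ j, IsAbelianWith F (X j) (P j) (Q j) ∨ IsTransWith F (X j) (P j) (Q j))
    (ℓ : ℕ) [Fact ℓ.Prime] (hℓ : ℓ ≠ p)
    (hloc : ∀ j, LocallyConjugate (F.W ℓ).K (P j) (Q j)) (𝒴 : Set 𝒱.Obj) :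
    NumHomIff (F.W ℓ) (Set.range X) 𝒴 := by
  constructor
  · intro h2
    exact fun Z hZ V hV => (homEqNum_mixed (𝒢 := syms (F.G ℓ))
      (twoKinds_of F hPQ hX ℓ hℓ hloc) h2 hZ).image hV
  · intro h Y hY
    exact h Y (isProductOf_mono Set.subset_union_right hY) Y (dominates_refl Y)

variable [Fintype J]

/-- **Many primes.** -/
theorem density_local (hPQ : ∀ j, IsConjugationPair (P j) (Q j))
    (hX : ∀ j, IsAbelianWith F (X j) (P j) (Q j) ∨ IsTransWith F (X j) (P j) (Q j)) :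
    HasLowerDensity {ℓ | ∀ 𝒴 : Set 𝒱.Obj, NumHomIff (F.W ℓ) (Set.range X) 𝒴}
      ((1 / 2 : ℝ) ^ pairNumber P) :=
  density_conj hPQ p (fun ℓ => (F.W ℓ).K) (fun ℓ _ hℓ => F.adic ℓ hℓ) _
    (fun ℓ _ hℓ hloc 𝒴 => numHomIff_of_local F hPQ hX ℓ hℓ hloc 𝒴)

end Pool.Agent.J4.H13.CZ
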