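import Pool.Agent.R908.KoC
import Pool.Agent.Helper8K9.AV.Lin
import Pool.Agent.J4.H13.CZ.GalDefs

/-!
# Products of abelian varieties and of varieties with known transcendental cohomology
-/

open CategoryTheory AlgebraicGeometry TensorProduct Polynomial

universe u v w w'

namespace Pool.Agent.J4.H13.CZ

open Pool.Agent.H914 Pool.Agent.H914.VarClass Pool.Agent.H914.VarClass.Obj
  Pool.Agent.H914.WeilCohomology Pool.Agent.H281R3.HT Pool.Agent.R908
  Pool.Agent.Helper8K9.AV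

variable {k : Type u} [Field k] {𝒱 : VarClass k} {ops : CycleOps 𝒱}
  {W : WeilCohomology.{u, v} ops} {𝒢 : Set (Symmetry W)}

/-- The two kinds of varieties. -/
def TwoKinds (𝒢 : Set (Symmetry W)) (X : 𝒱.Obj) : Prop :=
  (∃ (m : X.prod X ⟶ X) (D : X.Cycles), IsAbelianType 𝒢 X m D ∧ AnisotropicOne 𝒢 X) ∨
    (HomEqNum W X ∧ SignAlgebraic W X ∧ Anisotropic 𝒢 X)

/-- **The conjecture D for products of varieties of the two kinds with other varieties.** -/
theorem homEqNum_mixed {P 𝒴 : Set 𝒱.Obj} (hP : ∀ X ∈ P, TwoKinds 𝒢 X)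
    (h𝒴 : ∀ Y, IsProductOf 𝒴 Y → HomEqNum W Y) {Z : 𝒱.Obj} (hZ : IsProductOf (P ∪ 𝒴) Z) :
    HomEqNum W Z := by
  by_cases hone : (1 : W.H Z) = 0
  · intro j _ z _ _
    calc W.cl Z z = 1 * W.cl Z z := by rw [one_mul]
      _ = 0 := by rw [hone, zero_mul]
  refine homEqNum_words (𝒢 := 𝒢) h𝒴 (fun X hX => ?_) ?_ hZ
  · rcases hP X hX with ⟨m, D, h1, h2⟩ | ⟨h1, h2, h3⟩
    · exact id_mem_words_ab h1 h2
    · exact id_mem_words h1 h2 h3
  obtain ⟨X, hX, h1⟩ := one_ne_of_prod hZ hone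
  have hfund : (1 : W.H X) ∈ spanCycles W X 0 :=
    Submodule.subset_span ⟨0, rfl, X.V.fundCycle, X.V.fundCycle_mem, W.cl_fund X⟩
  rcases hX with hX | hX
  · rcases hP X hX with ⟨m, D, hA, -⟩ | ⟨hD, -, -⟩
    · obtain ⟨π, hπ, hK⟩ := exists_projs hA.abelianLike
      have htop := tr_top_ne hA.lefschetz hA.divisor h1
      have hc0 : (W.cl X D) ^ X.dim ∈ spanCycles W X X.dim := by
        have h2 := KOp.map_span (lefP_mem (W := W) hA.divisor X.dim) (x := (1 : W.H X)) (j := 0)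
          (Submodule.subset_span ⟨0, rfl, X.V.fundCycle, X.V.fundCycle_mem, (W.cl_fund X)⟩)
        rw [zero_add, lefP_eq, mul_one] at h2
        exact h2
      refine ⟨Hi hπ hK 0, ⟨[Hi hπ hK 0], ?_, 1, Or.inl rfl, ?_⟩, 0, 1, hfund, ?_⟩
      · intro B hB
        rw [List.mem_singleton] at hB
        rw [hB]
        refine ⟨⟨1, fun _ => (W.tr X ((W.cl X D) ^ X.dim))⁻¹ • (W.cl X D) ^ X.dim, fun _ => 1,
          fun _ => X.dim, fun _ => Submodule.smul_mem _ _ hc0, fun x => ?_⟩,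
          fun S _ => hπ.comm S 0⟩
        rw [Finset.univ_unique, Finset.sum_singleton]
        refine projs_zero_alg hπ (Submodule.smul_mem _ _ hc0) ?_ x
        rw [map_smul, smul_eq_mul, inv_mul_cancel₀ htop]
      · rw [List.map_singleton, List.prod_singleton, mul_one]
      · change π 0 (1 : W.H X) ≠ 0
        rw [hπ.self (W.one_mem X)]
        exact h1
    · obtain ⟨s⟩ := exists_tSplit hD
      refine ⟨s.MC, ⟨[s.MC], ?_, 1, Or.inl rfl, ?_⟩, 0, 1, hfund, ?_⟩
      · intro B hB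
        rw [List.mem_singleton] at hB
        rw [hB]
        exact ⟨s.MC_alg, fun S _ => s.MC_comm S⟩
      · rw [List.map_singleton, List.prod_singleton, mul_one]
      · change s.eC (1 : W.H X) ≠ 0
        rw [s.eC_apply, s.kill_alg hfund, sub_zero]
        exact h1
  · refine ⟨whole W X, ⟨[], fun B hB => absurd hB List.not_mem_nil, _,
      Or.inr ⟨X, IsProductOf.base hX, rfl⟩, ?_⟩, 0, 1, hfund, ?_⟩
    · rw [List.map_nil, List.prod_nil, one_mul]
    · exact h1

/-- A correspondence among those in a linear combination. -/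
lemma exists_corr {X : 𝒱.Obj} {δ : ℤ} {θ : W.H X →ₗ[W.K] W.H X} (hθ : θ ∈ KOp W X X δ)
    {x y : W.H X} (h : W.tr X (x * θ y) ≠ 0) :
    ∃ θ' ∈ ⋃ p, correspondences W X p, W.tr X (x * θ' y) ≠ 0 := by
  by_contra hcon
  push Not at hcon
  apply h
  clear h
  induction hθ using Submodule.span_induction with
  | mem φ hφ =>
    obtain ⟨q, hq, z, hz, rfl⟩ := hφ
    exact hcon _ (Set.mem_iUnion.2 ⟨q, z, hz, rfl⟩)
  | zero => rw [LinearMap.zero_apply, mul_zero, map_zero]
  | add a b _ _ ha hb => rw [LinearMap.add_apply, mul_add, map_add, ha, hb, add_zero]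
  | smul c a _ ha => rw [LinearMap.smul_apply, mul_smul_comm, map_smul, ha, smul_zero]

/-- The symmetry. -/
noncomputable def GalSym.toSymmetry (S : GalSym W) : Symmetry W where
  σ := S.σ
  c := S.c
  sim X := ⟨(S.sim X).1, (S.sim X).2.1, (S.sim X).2.2⟩
  monoidal X Y := ⟨fun a => (S.fst X Y a).symm, fun a => (S.snd X Y a).symm⟩
  cycles X p a := S.cycles X p a

/-- The symmetries. -/
def syms (𝒢 : Set (GalSym W)) : Set (Symmetry W) := GalSym.toSymmetry '' 𝒢

lemma allOps_eq (𝒢 : Set (GalSym W)) (X : 𝒱.Obj) :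
    allOps 𝒢 X = correspondences W X X.dim ∪ {e | ∃ S ∈ syms 𝒢, e = S.σ X} := by
  ext f
  constructor
  · rintro (⟨φ, ⟨z, hz, rfl⟩, h⟩ | ⟨g, ⟨S, hS, rfl⟩, h⟩)
    · exact Or.inl ⟨z, hz, funext h⟩
    · exact Or.inr ⟨S.toSymmetry, ⟨S, hS, rfl⟩, funext h⟩
  · rintro (⟨z, hz, rfl⟩ | ⟨_, ⟨S, hS, rfl⟩, rfl⟩)
    · exact Or.inl ⟨_, ⟨z, hz, rfl⟩, fun x => rfl⟩
    · exact Or.inr ⟨_, ⟨S, hS, rfl⟩, fun x => rfl⟩

lemma allOps_add {𝒢 : Set (GalSym W)} {X : 𝒱.Obj} :
    ∀ c ∈ allOps 𝒢 X, ∀ x y, c (x + y) = c x + c y := by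
  rintro c (⟨φ, -, h⟩ | ⟨g, -, h⟩) x y
  · rw [h, h, h, map_add]
  · rw [h, h, h, map_add]

/-- The form on the first cohomology of an abelian variety. -/
noncomputable def lefForm (W : WeilCohomology.{u, v} ops) (A : 𝒱.Obj) (D : A.Cycles) :
    W.H A →ₗ[W.K] W.H A →ₗ[W.K] W.K :=
  (bil W A).compl₂ (lefP W A D (A.dim - 1))

lemma lefForm_apply (A : 𝒱.Obj) (D : A.Cycles) (x y : W.H A) :
    lefForm W A D x y = W.tr A (x * ((W.cl A D) ^ (A.dim - 1) * y)) := by
  have h : lefForm W A D x y = W.tr A (x * lefP W A D (A.dim - 1) y) := rfl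
  rw [h, lefP_eq]

/-- The form is nondegenerate. -/
lemma lefForm_nondeg {A : 𝒱.Obj} {D : A.Cycles} (hL : HardLefschetz W A D) {a : W.H A}
    (ha : a ∈ W.gr A 1) (h : ∀ y ∈ W.gr A 1, lefForm W A D a y = 0) : a = 0 := by
  by_cases hg : A.dim = 0
  · rw [W.gr_eq_bot A 1 (by omega), Submodule.mem_bot] at ha
    exact ha
  · apply W.nondeg
    intro b
    refine gr_induction (W.isInternal A) (p := fun b => W.tr A (a * b) = 0) ?_ ?_ b
    · intro i b hb
      by_cases hi : i = 2 * A.dim - 1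
      · subst hi
        obtain ⟨b', hb', rfl⟩ := (hL 1 (by omega)).2 b hb
        exact h b' hb'
      · exact W.tr_eq_zero (W.mul_mem ha hb) (by omega)
    · intro x y hx hy
      rw [mul_add, map_add, hx, hy, add_zero]

variable {P Q : ℚ[X]} {𝒮 : Set (GalSym W)}

/-- **Abelian varieties for which the commutant of the correspondences and of the Galois group is
known.** -/
theorem twoKinds_of_abelianAt {A : 𝒱.Obj} {m : A.prod A ⟶ A} {D : A.Cycles}
    (hA : AbelianAt 𝒮 A m D P Q) (hP : Squarefree P) (hloc : LocallyConjugate W.K P Q) :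
    TwoKinds (syms 𝒮) A := by
  refine Or.inl ⟨m, D, ⟨hA.abelianLike, hA.divisor, hA.lefschetz, ?_⟩, ?_⟩
  · rintro _ ⟨S, hS, rfl⟩
    exact hA.eigen S hS
  intro V hV hne hst
  obtain ⟨hss, hcom⟩ := hA.central
  have hcom' : HasCommutant (W.gr A 1) (fun x y => lefForm W A D x y) (allOps 𝒮 A) P Q := by
    have h1 : (fun x y => lefForm W A D x y) =
        twForm (W.tr A) (W.cl A D) (A.dim - 1) := by
      funext x y
      exact lefForm_apply A D x y
    rw [h1]
    exact hcom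
  rw [← allOps_eq] at hst
  obtain ⟨x, hx, y, hy, hxy⟩ := pairs_of_commutant (B := lefForm W A D) hP allOps_add
    (fun x hx h => lefForm_nondeg hA.lefschetz hx h) hss hcom' hloc hV hne hst
  obtain ⟨θ, hθ, h1⟩ := exists_corr (lefP_mem (W := W) hA.divisor (A.dim - 1))
    (x := x) (y := y) hxy
  exact ⟨θ, hθ, x, hx, y, hy, h1⟩

/-- The sign operator, if the transcendental cohomology is concentrated in one degree. -/
lemma signAlgebraic_of_deg {X : 𝒱.Obj} (h : transcendental W X ≤ W.gr X X.dim) :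
    SignAlgebraic W X := by
  obtain ⟨γ, hγ, h1⟩ := mem_KOp_iff.1 (Submodule.smul_mem _ ((-1 : W.K) ^ X.dim)
    (KOp.id (W := W) X))
  rw [add_zero] at hγ
  refine ⟨γ, hγ, fun i a ha haT => ?_⟩
  rw [h1, LinearMap.smul_apply, LinearMap.id_apply]
  by_cases hi : i = X.dim
  · rw [hi]
  · have h2 : a = 0 := by
      exact (Submodule.disjoint_def.1 ((W.isInternal X).submodule_iSupIndep.pairwiseDisjoint hi))
        a ha (h haT)
    rw [h2, smul_zero, smul_zero]

/-- **Varieties for which the commutant of the correspondences and of the Galois group on the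
transcendental cohomology is known.** -/
theorem twoKinds_of_transAt {X : 𝒱.Obj} (hX : TransAt 𝒮 X P Q) (hP : Squarefree P)
    (hloc : LocallyConjugate W.K P Q) : TwoKinds (syms 𝒮) X := by
  refine Or.inr ⟨hX.num, signAlgebraic_of_deg hX.deg, ?_⟩
  intro V hV hne hst
  obtain ⟨hss, hcom'⟩ := hX.central
  have hcom : HasCommutant (transcendental W X) (fun x y => bil W X x y) (allOps 𝒮 X) P Q := by
    have h1 : (fun x y => bil W X x y) = twForm (W.tr X) 1 0 := by
      funext x y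
      change W.tr X (x * y) = W.tr X (x * ((1 : W.H X) ^ 0 * y))
      rw [pow_zero, one_mul]
    rw [h1]
    exact hcom'
  rw [← allOps_eq] at hst
  obtain ⟨s⟩ := exists_tSplit hX.num
  obtain ⟨x, hx, y, hy, hxy⟩ := pairs_of_commutant (B := bil W X) hP allOps_add
    (fun x hx h => by
      rw [← s.fix x hx]
      apply s.nondeg
      intro y
      rw [s.fix x hx]
      exact h _ (s.mem_T y)) hss hcom hloc hV hne hst
  obtain ⟨θ, hθ, h1⟩ := exists_corr (KOp.id (W := W) X) (x := x) (y := y) hxy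
  exact ⟨θ, hθ, x, hx, y, hy, h1⟩

end Pool.Agent.J4.H13.CZ
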